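import Pool.Agent.Q230.SU.Defs

/-!
# Surjectivity: the polynomial map and its correctness
-/

set_option autoImplicit false

namespace Pool.Agent.Q230.SU

open Pool.Agent.NPC Pool.Agent.NPC.ER

/-- `∀∃` sentences about systems. -/
def AESat (U : List ℕ) (S : List Con) : Prop :=
  ∀ x : ℕ → ℝ, ∃ v : ℕ → ℝ, (∀ i ∈ U, v i = x i) ∧ SysHolds v S

theorem holds_iff_sys (φ : Fm) (x : ℕ → ℝ) :
    φ.Holds x ↔ ∃ v : ℕ → ℝ, (∀ i, v (2 * i) = x i) ∧ SysHolds v (sysOf φ) := by
  obtain ⟨n', p, q, o', e, hn, hp, hq, A, hsound, hcomp⟩ := fspec φ 0 [] []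
  have e' : sysOf φ = Con.add p p p :: o' := by
    simp only [sysOf, e, top_cons, List.append_nil]
  rw [e']
  constructor
  · intro hx
    obtain ⟨v', h1, h2, h3, _⟩ := hcomp (fun i => x (i / 2))
    have h4 : ∀ i, v' (2 * i) = x i := by
      intro i
      rw [h1 _ (av_even _ _)]
      simp
    refine ⟨v', h4, sysHolds_cons.2 ⟨?_, h2⟩⟩
    rw [show (fun i => v' (2 * i)) = x from funext h4] at h3
    simp [Con.Holds, h3 hx]
  · rintro ⟨v, hv, hS⟩
    rw [sysHolds_cons] at hS
    have := (hsound v hS.2).1 (by have : v p + v p = v p := hS.1; linarith)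
    rwa [show (fun i => v (2 * i)) = x from funext hv] at this

theorem aetr_iff (U : List ℕ) (φ : Fm) : AETR (U, φ) ↔ AESat (U.map (2 * ·)) (sysOf φ) := by
  constructor
  · intro h x
    obtain ⟨y, hy, hφ⟩ := h (fun i => x (2 * i))
    obtain ⟨v, hv, hS⟩ := (holds_iff_sys φ y).1 hφ
    refine ⟨v, ?_, hS⟩
    intro i hi
    rw [List.mem_map] at hi
    obtain ⟨j, hj, rfl⟩ := hi
    rw [hv, hy j hj]
  · intro h x
    obtain ⟨v, hv, hS⟩ := h (fun i => x (i / 2))
    refine ⟨fun i => v (2 * i), ?_, (holds_iff_sys φ _).2 ⟨v, fun _ => rfl, hS⟩⟩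
    intro i hi
    have := hv _ (List.mem_map.2 ⟨i, hi, rfl⟩)
    simp only at this ⊢
    rw [this]
    simp

/-! ### Values of lists of monomials -/

/-- The value of a list of monomials. -/
noncomputable def val (v : ℕ → ℝ) (p : List (ℤ × List ℕ)) : ℝ :=
  (p.map fun t => (t.1 : ℝ) * (t.2.map v).prod).sum

theorem aeval_toPoly {n : ℕ} {p : List (ℤ × List ℕ)} (hp : Ok n p) (x : Fin n → ℝ) (v : ℕ → ℝ)
    (hv : ∀ i : Fin n, v i = x i) : MvPolynomial.aeval x (toPoly n p) = val v p := by
  have key : ∀ l : List ℕ, (∀ i ∈ l, i < n) → MvPolynomial.aeval x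
      (l.map fun i => if h : i < n then (MvPolynomial.X ⟨i, h⟩ : MvPolynomial (Fin n) ℤ)
        else 0).prod = (l.map v).prod := by
    intro l
    induction l with
    | nil => intro _; simp
    | cons i l ih =>
      intro h
      have h1 := h i List.mem_cons_self
      rw [List.map_cons, List.prod_cons, map_mul, ih fun j hj => h j (List.mem_cons_of_mem _ hj),
        List.map_cons, List.prod_cons, dif_pos h1, MvPolynomial.aeval_X, ← hv]
  unfold toPoly val
  induction p with
  | nil => simp
  | cons t p ih =>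
    have h1 := hp t List.mem_cons_self
    have h2 := ih fun t ht => hp t (List.mem_cons_of_mem _ ht)
    rw [List.map_cons, List.sum_cons, map_add, h2, List.map_cons, List.sum_cons, map_mul, key _ h1]
    congr 2
    simp

theorem val_append (v : ℕ → ℝ) (p q : List (ℤ × List ℕ)) : val v (p ++ q) = val v p + val v q := by
  simp [val]

theorem val_cons (v : ℕ → ℝ) (t : ℤ × List ℕ) (p : List (ℤ × List ℕ)) :
    val v (t :: p) = (t.1 : ℝ) * (t.2.map v).prod + val v p := by
  simp [val]

@[simp] theorem val_nil (v : ℕ → ℝ) : val v [] = 0 := by simp [val]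

/-- product of polynomials -/
def pmul (p q : List (ℤ × List ℕ)) : List (ℤ × List ℕ) :=
  p.flatMap fun t => q.map fun s => (t.1 * s.1, t.2 ++ s.2)

theorem val_pmul (v : ℕ → ℝ) (p q : List (ℤ × List ℕ)) : val v (pmul p q) = val v p * val v q := by
  induction p with
  | nil => simp [pmul]
  | cons t p ih =>
    have h : pmul (t :: p) q = (q.map fun s => (t.1 * s.1, t.2 ++ s.2)) ++ pmul p q := by
      simp [pmul]
    have h2 : val v (q.map fun s => (t.1 * s.1, t.2 ++ s.2)) = (t.1 : ℝ) * (t.2.map v).prod * val v q := by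
      clear h ih
      induction q with
      | nil => simp
      | cons s q ih =>
        rw [List.map_cons, val_cons, ih, val_cons]
        simp only [List.map_append, List.prod_append]
        push_cast
        ring
    rw [h, val_append, ih, h2, val_cons]
    ring

/-! ### The map -/

/-- the residual of a constraint; the variables are renamed by their position in `V` -/
def res (V : List ℕ) : ER.Con → List (ℤ × List ℕ)
  | ER.Con.one i => [(1, [V.idxOf i]), (-1, [])]
  | ER.Con.add i j k => [(1, [V.idxOf i]), (1, [V.idxOf j]), (-1, [V.idxOf k])]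
  | ER.Con.mul i j k => [(1, [V.idxOf i, V.idxOf j]), (-1, [V.idxOf k])]

theorem res_zero (V : List ℕ) (x : ℕ → ℝ) (c : ER.Con) :
    val x (res V c) = 0 ↔ c.Holds (fun i => x (V.idxOf i)) := by
  cases c <;> simp [res, val, Con.Holds, add_eq_zero_iff_eq_neg, ← add_assoc]

/-- the names of the variables -/
def nam (U : List ℕ) (S : List ER.Con) : List ℕ := S.flatMap Con.vars ++ U

/-- the sum of the squares -/
def big (U : List ℕ) (S : List ER.Con) : List (ℤ × List ℕ) :=
  (S.flatMap fun c => pmul (res (nam U S) c) (res (nam U S) c)) ++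
    [(1, [(nam U S).length, (nam U S).length])]

/-- the map of the plane onto the plane without the origin, as polynomials in `u`, `v` -/
def H1 (N : ℕ) : List (ℤ × List ℕ) := [(1, [N + 1, N + 2]), (-1, [])]

/-- the second component -/
def H2 (N : ℕ) : List (ℤ × List ℕ) :=
  [(1, [N + 1, N + 1, N + 1, N + 2]), (-1, [N + 1, N + 1]), (-1, [N + 2])]

/-- the components of the map -/
def cps (U : List ℕ) (S : List ER.Con) : List (List (ℤ × List ℕ)) :=
  (U.dedup.map fun i => [((1 : ℤ), [(nam U S).idxOf i])]) ++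
      [pmul (big U S) (H1 (nam U S).length), pmul (big U S) (H2 (nam U S).length)]

/-- the instance -/
def inst (p : List ℕ × List ER.Con) : ℕ × List (List (ℤ × List ℕ)) :=
  ((nam p.1 p.2).length + 3, cps p.1 p.2)

theorem cubic (b c : ℝ) : ∃ u : ℝ, u ^ 3 - b * u - c = 0 := by
  have hb := abs_nonneg b
  have hc := abs_nonneg c
  obtain ⟨M, hM⟩ : ∃ M, M = 1 + |b| + |c| := ⟨_, rfl⟩
  have hM1 : 1 ≤ M := by linarith
  have hM2 : M * M ≥ M := by nlinarith
  have hM3 : M ^ 3 > |b| * M + |c| := by
    have : M ^ 3 = M * M * M := by ring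
    nlinarith [mul_nonneg hc (by linarith : (0 : ℝ) ≤ M - 1)]
  have h1 : b * M ≤ |b| * M := mul_le_mul_of_nonneg_right (le_abs_self b) (by linarith)
  have h2 : -b * M ≤ |b| * M := mul_le_mul_of_nonneg_right (neg_le_abs b) (by linarith)
  have h3 := le_abs_self c
  have h4 := neg_le_abs c
  have hcont : ContinuousOn (fun u : ℝ => u ^ 3 - b * u - c) (Set.Icc (-M) M) := by fun_prop
  have := intermediate_value_Icc (by linarith : -M ≤ M) hcont
  obtain ⟨u, -, hu⟩ := this (show (0 : ℝ) ∈ Set.Icc _ _ from ⟨by nlinarith, by nlinarith⟩)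
  exact ⟨u, hu⟩

/-- every nonzero vector is a value -/
theorem H_surj (a b : ℝ) (h : ¬ (a = 0 ∧ b = 0)) : ∃ u v : ℝ, u * v - 1 = a ∧
    u ^ 3 * v - u ^ 2 - v = b := by
  by_cases ha : a = 0
  · have hb : b ≠ 0 := fun hb => h ⟨ha, hb⟩
    refine ⟨-1 / b, -b, ?_, ?_⟩
    · rw [ha]; field_simp; ring
    · field_simp; ring
  · by_cases ha1 : a = -1
    · exact ⟨0, -b, by rw [ha1]; ring, by ring⟩
    · obtain ⟨u, hu⟩ := cubic (b / a) ((1 + a) / a)
      have hu0 : u ≠ 0 := by
        rintro rfl
        apply ha1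
        field_simp at hu
        linarith
      refine ⟨u, (1 + a) / u, by field_simp; ring, ?_⟩
      field_simp at hu ⊢
      linarith

/-- the origin is no value -/
theorem H_ne (u v : ℝ) (h1 : u * v - 1 = 0) (h2 : u ^ 3 * v - u ^ 2 - v = 0) : False := by
  have h3 : v = 0 := by linear_combination u ^ 2 * h1 - h2
  rw [h3] at h1
  norm_num at h1

end Pool.Agent.Q230.SU
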