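import Pool.Agent.ER.Hard

/-!
# The class `∀∃ℝ` and surjectivity of integer polynomial maps
-/

set_option autoImplicit false

namespace Pool.Agent.Q230.SU

open Pool.Agent.NPC Pool.Agent.NPC.ER MvPolynomial

/-- Truth of `∀∃` sentences over the reals.  A sentence is a pair `(U, φ)`: the variables `x_i` with
`i` in the list `U` are quantified universally, then all other variables existentially, and `φ` is
the quantifier-free part (a Boolean combination of polynomial equations and inequalities with
integer coefficients). -/
def AETR (I : List ℕ × Fm) : Prop :=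
  ∀ x : ℕ → ℝ, ∃ y : ℕ → ℝ, (∀ i ∈ I.1, y i = x i) ∧ I.2.Holds y

/-- The class `∀∃ℝ`: a language `L` belongs to it if some polynomial-time function maps every
string `w` to (the encoding of) a `∀∃` sentence that is true over the reals if and only if
`w ∈ L`. -/
def InAER (L : Set (List Bool)) : Prop :=
  ∃ f : List Bool → List ℕ × Fm, PolyTime (fun w => bits (f w)) ∧ ∀ w, w ∈ L ↔ AETR (f w)

/-- `∀∃ℝ`-hardness under polynomial-time many-one reductions. -/
def AERHard (L : Set (List Bool)) : Prop := ∀ L', InAER L' → Reduces L' L

/-- `∀∃ℝ`-completeness under polynomial-time many-one reductions. -/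
def AERComplete (L : Set (List Bool)) : Prop := InAER L ∧ AERHard L

/-- The polynomial in the variables `x_0, ..., x_{n-1}` given by a list of monomials; a pair
`(c, [i₁, ..., i_k])` stands for the monomial `c x_{i₁} ⋯ x_{i_k}`. -/
noncomputable def toPoly (n : ℕ) (p : List (ℤ × List ℕ)) : MvPolynomial (Fin n) ℤ :=
  (p.map fun t => C t.1 * (t.2.map fun i => if h : i < n then X ⟨i, h⟩ else 0).prod).sum

/-- All variables of the list have an index less than `n`. -/
def Ok (n : ℕ) (p : List (ℤ × List ℕ)) : Prop := ∀ t ∈ p, ∀ i ∈ t.2, i < n

/-- The surjectivity problem on full spaces.  The input is the number `n` of variables and a list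
`f_1, ..., f_m` of integer polynomials in `n` variables; the question is whether the map
`(f_1, ..., f_m) : ℝ^n → ℝ^m` is surjective. -/
def Surj (I : ℕ × List (List (ℤ × List ℕ))) : Prop :=
  (∀ p ∈ I.2, Ok I.1 p) ∧ Function.Surjective
    fun (x : Fin I.1 → ℝ) (j : Fin I.2.length) => aeval x (toPoly I.1 (I.2.get j))

/-- The surjectivity problem on full spaces for polynomials all of whose monomials have degree at
most `d`. -/
def SurjDeg (d : ℕ) (I : ℕ × List (List (ℤ × List ℕ))) : Prop :=
  (∀ p ∈ I.2, ∀ t ∈ p, t.2.length ≤ d) ∧ Surj I

end Pool.Agent.Q230.SU
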