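import Pool.Agent.Q230.SU.Red
import Pool.Agent.ER.Build
import Pool.Agent.H612.CollectPoly
import Pool.Agent.H78R3.TSV.Mem

/-!
# Surjectivity: hardness and membership
-/

set_option autoImplicit false

namespace Pool.Agent.NPC.Q230SU

open Pool.Agent.NPC Pool.Agent.NPC.ER Pool.Agent.Q230.SU Pool.Agent.H78R3.TSV
open Pool.Agent.NPC.H670R2 Pool.Agent.NPC.H78TSV

/-- hardness criterion -/
theorem AERHard.of_sys {α : Type} [TEnc α] {P : α → Prop} {f : List ℕ × List ER.Con → α}
    (hf : Poly f) (h : ∀ U S, AESat U S ↔ P (f (U, S))) : AERHard (lang P) := by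
  rintro L' ⟨g, hg, hL⟩
  have h1 : PC (id : List Bool → List Bool) (bits : List ℕ × Fm → List Bool) g :=
    H642R2.TMSim.polyTime_toPC hg
  have h2 : Poly (fun φ : List ℕ × Fm => f (φ.1.map (2 * ·), sysOf φ.2)) :=
    Poly.comp hf (Poly.pair (Poly.map (F := fun _ i => 2 * i) (Poly.fst Poly.id)
      (Poly.mul (Poly.const 2) (Poly.snd Poly.id))) (poly_sysOf (Poly.snd Poly.id)))
  have h3 : PC (id : List Bool → List Bool) (bits : α → List Bool)
      (fun x => f ((g x).1.map (2 * ·), sysOf (g x).2)) :=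
    PC.comp (g := fun φ : List ℕ × Fm => f (φ.1.map (2 * ·), sysOf φ.2))
      (eb := (bits : List ℕ × Fm → List Bool)) h2 h1
  have h4 : PC (id : List Bool → List Bool) (id : List Bool → List Bool)
    (fun x => bits (f ((g x).1.map (2 * ·), sysOf (g x).2))) := h3
  refine ⟨fun x => bits (f ((g x).1.map (2 * ·), sysOf (g x).2)), PC.toPolyTime h4, fun x => ?_⟩
  rw [hL, show g x = ((g x).1, (g x).2) from rfl, aetr_iff, h]
  constructor
  · intro hP
    exact ⟨_, rfl, hP⟩
  · rintro ⟨a, ha, hP⟩
    rwa [bits_injective ha] at hP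

theorem not_aetr_ff : ¬ AETR ([], ff) := fun h => by
  obtain ⟨y, -, hy⟩ := h 0
  exact holds_ff y hy

/-- Membership criterion. -/
theorem InAER.of_poly {α : Type} [TEnc α] [NPC.TDec α] {P : α → Prop} {φ : α → List ℕ × Fm}
    (h : Poly φ) (hP : ∀ a, P a ↔ AETR (φ a)) : InAER (lang P) := by
  refine ⟨fun w => match unbits α w with | none => ([], ff) | some a => φ a, ?_, fun w => ?_⟩
  · refine polyTime_bits (g := fun w => match unbits α w with | none => ([], ff) | some a => φ a) ?_
    exact Poly.optCases (g := fun _ => ([], ff)) (h := fun _ a => φ a) poly_unbits (Poly.const _)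
      (h.comp (Poly.snd Poly.id))
  · rw [NPC.mem_lang_iff]
    cases hx : unbits α w with
    | none => simp only [hx]; simp [not_aetr_ff]
    | some a => simp only [hx]; simp [hP a]

section

variable {α : Type} [TEnc α]

theorem poly_pmul {p q : α → List (ℤ × List ℕ)} (hp : Poly p) (hq : Poly q) :
    Poly (fun a => pmul (p a) (q a)) := by
  refine Poly.flatMap (F := fun a (t : ℤ × List ℕ) => (q a).map fun s => (t.1 * s.1, t.2 ++ s.2)) hp ?_
  refine Poly.map (F := fun (x : α × ℤ × List ℕ) (s : ℤ × List ℕ) => (x.2.1 * s.1, x.2.2 ++ s.2))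
    (hq.comp (Poly.fst Poly.id)) ?_
  have h1 : Poly (fun z : (α × ℤ × List ℕ) × ℤ × List ℕ => z.1.2) := Poly.snd (Poly.fst Poly.id)
  have h2 : Poly (fun z : (α × ℤ × List ℕ) × ℤ × List ℕ => z.2) := Poly.snd Poly.id
  exact Poly.pair (Poly.imul h1.fst h2.fst) (Poly.append h1.snd h2.snd)

theorem res_eq (V : List ℕ) (c : ER.Con) : res V c =
    if c.code.1 = 0 then [(1, [V.idxOf c.code.2.1]), (-1, [])]
    else if c.code.1 = 1 then [(1, [V.idxOf c.code.2.1]), (1, [V.idxOf c.code.2.2.1]),
      (-1, [V.idxOf c.code.2.2.2])]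
    else [(1, [V.idxOf c.code.2.1, V.idxOf c.code.2.2.1]), (-1, [V.idxOf c.code.2.2.2])] := by
  cases c <;> rfl

theorem poly_res {V : α → List ℕ} {c : α → ER.Con} (hV : Poly V) (hc : Poly c) :
    Poly (fun a => res (V a) (c a)) := by
  have h0 := poly_con_code hc
  have i1 := H612.poly_idxOf hV h0.snd.fst
  have i2 := H612.poly_idxOf hV h0.snd.snd.fst
  have i3 := H612.poly_idxOf hV h0.snd.snd.snd
  have c1 : Poly (fun _ : α => (1 : ℤ)) := Poly.const _
  have c2 : Poly (fun _ : α => (-1 : ℤ)) := Poly.const _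
  have n0 : Poly (fun _ : α => ([] : List ℕ)) := Poly.const _
  have m0 : Poly (fun _ : α => ([] : List (ℤ × List ℕ))) := Poly.const _
  refine (Poly.ite (p := fun a => (c a).code.1 = 0) (Poly.decide_eq h0.fst (Poly.const 0)) ?_
    (Poly.ite (p := fun a => (c a).code.1 = 1) (Poly.decide_eq h0.fst (Poly.const 1)) ?_ ?_)).congr
    fun a => (res_eq (V a) (c a)).symm
  · exact Poly.cons (Poly.pair c1 (Poly.cons i1 n0)) (Poly.cons (Poly.pair c2 n0) m0)
  · exact Poly.cons (Poly.pair c1 (Poly.cons i1 n0)) (Poly.cons (Poly.pair c1 (Poly.cons i2 n0))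
      (Poly.cons (Poly.pair c2 (Poly.cons i3 n0)) m0))
  · exact Poly.cons (Poly.pair c1 (Poly.cons i1 (Poly.cons i2 n0)))
      (Poly.cons (Poly.pair c2 (Poly.cons i3 n0)) m0)

theorem poly_nam {U : α → List ℕ} {S : α → List ER.Con} (hU : Poly U) (hS : Poly S) :
    Poly (fun a => nam (U a) (S a)) := Poly.append (poly_svars hS) hU

theorem poly_big {U : α → List ℕ} {S : α → List ER.Con} (hU : Poly U) (hS : Poly S) :
    Poly (fun a => big (U a) (S a)) := by
  have hV := poly_nam hU hS
  have hN := Poly.length hV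
  refine Poly.append ?_ ?_
  · refine Poly.flatMap (F := fun a c => pmul (res (nam (U a) (S a)) c) (res (nam (U a) (S a)) c)) hS ?_
    have h := poly_res (hV.comp (Poly.fst (Poly.id (α := α × ER.Con)))) (Poly.snd Poly.id)
    exact poly_pmul h h
  · exact Poly.cons (Poly.pair (Poly.const _) (Poly.cons hN (Poly.cons hN (Poly.const _))))
      (Poly.const _)

theorem poly_H1 {N : α → ℕ} (hN : Poly N) : Poly (fun a => H1 (N a)) := by
  have h1 := Poly.add hN (Poly.const 1)
  have h2 := Poly.add hN (Poly.const 2)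
  exact Poly.cons (Poly.pair (Poly.const _) (Poly.cons h1 (Poly.cons h2 (Poly.const _))))
    (Poly.const _)

theorem poly_H2 {N : α → ℕ} (hN : Poly N) : Poly (fun a => H2 (N a)) := by
  have h1 := Poly.add hN (Poly.const 1)
  have h2 := Poly.add hN (Poly.const 2)
  exact Poly.cons (Poly.pair (Poly.const _) (Poly.cons h1 (Poly.cons h1 (Poly.cons h1 (Poly.cons h2
    (Poly.const _)))))) (Poly.cons (Poly.pair (Poly.const _) (Poly.cons h1 (Poly.cons h1
    (Poly.const _)))) (Poly.cons (Poly.pair (Poly.const _) (Poly.cons h2 (Poly.const _)))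
    (Poly.const _)))

theorem poly_inst : Poly Q230.SU.inst := by
  have hU : Poly (fun p : List ℕ × List ER.Con => p.1) := Poly.fst Poly.id
  have hS : Poly (fun p : List ℕ × List ER.Con => p.2) := Poly.snd Poly.id
  have hV := poly_nam hU hS
  have hN := Poly.length hV
  have hB := poly_big hU hS
  refine Poly.pair (Poly.add hN (Poly.const 3)) (Poly.append ?_ ?_)
  · refine Poly.map (F := fun (p : List ℕ × List ER.Con) i => [((1 : ℤ), [(nam p.1 p.2).idxOf i])])
      (H612.poly_dedup hU) ?_
    exact Poly.cons (Poly.pair (Poly.const _) (Poly.cons (H612.poly_idxOf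
      (hV.comp (Poly.fst Poly.id)) (Poly.snd Poly.id)) (Poly.const _))) (Poly.const _)
  · exact Poly.cons (poly_pmul hB (poly_H1 hN)) (Poly.cons (poly_pmul hB (poly_H2 hN))
      (Poly.const _))

end

/-- Surjectivity is `∀∃ℝ`-hard. -/
theorem surj_hard : AERHard (lang Surj) := AERHard.of_sys poly_inst correct

theorem surjDeg_hard {d : ℕ} (hd : 8 ≤ d) : AERHard (lang (SurjDeg d)) :=
  AERHard.of_sys poly_inst fun U S => by
    rw [correct]
    exact ⟨fun h => ⟨fun p hp t ht => (dg_inst (U, S) p hp t ht).trans hd, h⟩, fun h => h.2⟩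

/-! ### Membership -/

/-- product of terms -/
def prodTm (l : List Tm) : Tm := l.foldr Tm.mul Tm.one

theorem eval_prodTm (x : ℕ → ℝ) (l : List Tm) : (prodTm l).eval x = (l.map (Tm.eval x)).prod := by
  induction l with
  | nil => simp [prodTm, Tm.eval]
  | cons t l ih =>
    have h : prodTm (t :: l) = Tm.mul t (prodTm l) := rfl
    rw [h, Tm.eval, ih]
    simp

theorem toks_prodTm (l : List Tm) : (prodTm l).toks = l.flatMap Tm.toks ++ [Tok.one] ++
    List.replicate l.length Tok.mul := by
  induction l with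
  | nil => rfl
  | cons t l ih =>
    have h : prodTm (t :: l) = Tm.mul t (prodTm l) := rfl
    rw [h, Tm.toks, ih]
    simp [List.replicate_succ']

theorem poly_prodTm {α : Type} [TEnc α] {l : α → List Tm} (hl : Poly l) :
    Poly (fun a => prodTm (l a)) := by
  refine tm_of_toks (Poly.congr (f := fun a => (l a).flatMap Tm.toks ++ [Tok.one] ++
    List.replicate (l a).length Tok.mul) ?_ fun a => (toks_prodTm _).symm)
  refine Poly.append (Poly.append (Poly.flatMap (F := fun _ φ => Tm.toks φ) hl
    (tm_toks (Poly.snd Poly.id))) (Poly.const _)) (poly_replicate hl _)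

/-- the term of a polynomial; variable `i` becomes `2 i + 1` -/
def plT (p : List (ℤ × List ℕ)) : Tm :=
  sumTm (p.map fun t => Tm.mul (intTm t.1) (prodTm (t.2.map fun i => Tm.var (2 * i + 1))))

theorem eval_plT (x : ℕ → ℝ) (p : List (ℤ × List ℕ)) :
    (plT p).eval x = val (fun i => x (2 * i + 1)) p := by
  unfold plT val
  rw [eval_sumTm, List.map_map]
  congr 1
  refine List.map_congr_left fun t _ => ?_
  simp only [Function.comp, Tm.eval, eval_intTm, eval_prodTm, List.map_map]
  rfl

/-- the equations -/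
def eqs (fs : List (List (ℤ × List ℕ))) : List Fm :=
  fs.zipIdx.map fun q => Fm.eq (plT q.1) (Tm.var (2 * q.2))

/-- the validity test -/
def okB (n : ℕ) (fs : List (List (ℤ × List ℕ))) : Bool :=
  fs.all fun p => p.all fun t => t.2.all fun i => decide (i < n)

theorem okB_iff (n : ℕ) (fs : List (List (ℤ × List ℕ))) : okB n fs = true ↔ ∀ p ∈ fs, Ok n p := by
  simp [okB, Ok, List.all_eq_true]

/-- the degree test -/
def dgB (d : ℕ) (fs : List (List (ℤ × List ℕ))) : Bool :=
  fs.all fun p => p.all fun t => decide (t.2.length ≤ d)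

theorem dgB_iff (d : ℕ) (fs : List (List (ℤ × List ℕ))) :
    dgB d fs = true ↔ ∀ p ∈ fs, ∀ t ∈ p, t.2.length ≤ d := by
  simp [dgB, List.all_eq_true]

/-- the sentence -/
def sen (fs : List (List (ℤ × List ℕ))) : List ℕ × Fm :=
  ((List.range fs.length).map (2 * ·), conj (eqs fs))

theorem sen_correct (I : ℕ × List (List (ℤ × List ℕ))) (hok : ∀ p ∈ I.2, Ok I.1 p) :
    Surj I ↔ AETR (sen I.2) := by
  rw [surj_iff]
  refine (and_iff_right hok).trans ?_
  unfold AETR sen
  simp only [holds_conj, eqs, List.forall_mem_map, Fm.Holds, eval_plT, Tm.eval, List.mem_range]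
  constructor
  · intro h x
    obtain ⟨X, hX⟩ := h (fun j => x (2 * j))
    refine ⟨fun k => if k % 2 = 0 then x k else X (k / 2), ?_, ?_⟩
    · intro i hi
      simp only
      rw [if_pos (by omega)]
    · rintro ⟨p, j⟩ hq
      rw [List.mem_zipIdx_iff_getElem?] at hq
      obtain ⟨hj, hp⟩ := List.getElem?_eq_some_iff.1 hq
      simp only at hj hp ⊢
      have h1 := hX j hj
      rw [hp] at h1
      rw [if_pos (by omega), ← h1]
      congr 1
      funext i
      rw [if_neg (by omega)]
      congr 1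
      omega
  · intro h t
    obtain ⟨y, hy1, hy2⟩ := h (fun k => t (k / 2))
    refine ⟨fun i => y (2 * i + 1), fun j hj => ?_⟩
    have h1 := hy2 (I.2[j], j) (by rw [List.mem_zipIdx_iff_getElem?]; simp)
    have h2 := hy1 j hj
    simp only at h1 h2
    rw [h1, h2]
    congr 1
    omega

section

variable {α : Type} [TEnc α]

theorem poly_plT {p : α → List (ℤ × List ℕ)} (hp : Poly p) : Poly (fun a => plT (p a)) := by
  refine poly_sumTm ?_
  refine Poly.map (F := fun _ (t : ℤ × List ℕ) =>
    Tm.mul (intTm t.1) (prodTm (t.2.map fun i => Tm.var (2 * i + 1)))) hp ?_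
  have h : Poly (fun x : α × ℤ × List ℕ => x.2) := Poly.snd Poly.id
  refine poly_tmul (poly_intTm h.fst) (poly_prodTm ?_)
  exact Poly.map (F := fun _ i => Tm.var (2 * i + 1)) h.snd
    (poly_tvar (Poly.add (Poly.mul (Poly.const 2) (Poly.snd Poly.id)) (Poly.const 1)))

theorem poly_sen {fs : α → List (List (ℤ × List ℕ))} (hf : Poly fs) : Poly (fun a => sen (fs a)) := by
  refine Poly.pair ?_ (poly_conj ?_)
  · exact Poly.map (F := fun _ i => 2 * i) (UPoly.length hf).range
      (Poly.mul (Poly.const 2) (Poly.snd Poly.id))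
  · refine Poly.map (F := fun _ (q : List (ℤ × List ℕ) × ℕ) => Fm.eq (plT q.1) (Tm.var (2 * q.2)))
      (Poly.zipIdx hf) ?_
    have h : Poly (fun x : α × List (ℤ × List ℕ) × ℕ => x.2) := Poly.snd Poly.id
    exact poly_eq (poly_plT h.fst) (poly_tvar (Poly.mul (Poly.const 2) h.snd))

theorem poly_okB {n : α → ℕ} {fs : α → List (List (ℤ × List ℕ))} (hn : Poly n) (hf : Poly fs) :
    Poly (fun a => okB (n a) (fs a)) := by
  refine Poly.all (p := fun a (p : List (ℤ × List ℕ)) => p.all fun t => t.2.all fun i =>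
    decide (i < n a)) hf ?_
  refine Poly.all (p := fun (x : α × List (ℤ × List ℕ)) (t : ℤ × List ℕ) => t.2.all fun i =>
    decide (i < n x.1)) (Poly.snd Poly.id) ?_
  refine Poly.all (p := fun (x : (α × List (ℤ × List ℕ)) × ℤ × List ℕ) i =>
    decide (i < n x.1.1)) (Poly.snd (Poly.snd Poly.id)) ?_
  exact Poly.decide_lt (Poly.snd Poly.id) (hn.comp (Poly.fst (Poly.fst (Poly.fst Poly.id))))

theorem poly_dgB (d : ℕ) {fs : α → List (List (ℤ × List ℕ))} (hf : Poly fs) :
    Poly (fun a => dgB d (fs a)) := by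
  refine Poly.all (p := fun _ (p : List (ℤ × List ℕ)) => p.all fun t => decide (t.2.length ≤ d)) hf ?_
  refine Poly.all (p := fun (_ : α × List (ℤ × List ℕ)) (t : ℤ × List ℕ) =>
    decide (t.2.length ≤ d)) (Poly.snd Poly.id) ?_
  exact Poly.decide_le (Poly.length (Poly.snd (Poly.snd Poly.id))) (Poly.const d)

end

/-- the sentence of an instance -/
def senI (I : ℕ × List (List (ℤ × List ℕ))) : List ℕ × Fm :=
  if okB I.1 I.2 = true then sen I.2 else ([], ff)

theorem senI_correct (I : ℕ × List (List (ℤ × List ℕ))) : Surj I ↔ AETR (senI I) := by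
  unfold senI
  by_cases h : okB I.1 I.2 = true
  · rw [if_pos h]
    exact sen_correct I ((okB_iff _ _).1 h)
  · rw [if_neg h]
    constructor
    · intro h'
      exact absurd ((okB_iff _ _).2 h'.1) h
    · intro h'
      exact absurd h' not_aetr_ff

theorem surj_mem : InAER (lang Surj) := by
  have hI : Poly (fun I : ℕ × List (List (ℤ × List ℕ)) => I) := Poly.id
  refine InAER.of_poly (φ := senI) ?_ senI_correct
  exact Poly.ite (p := fun I : ℕ × List (List (ℤ × List ℕ)) => okB I.1 I.2 = true)
    (Poly.decide_bool (poly_okB hI.fst hI.snd)) (poly_sen hI.snd) (Poly.const _)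

/-- the sentence of an instance with a degree bound -/
def senD (d : ℕ) (I : ℕ × List (List (ℤ × List ℕ))) : List ℕ × Fm :=
  if dgB d I.2 = true then senI I else ([], ff)

theorem surjDeg_mem (d : ℕ) : InAER (lang (SurjDeg d)) := by
  have hI : Poly (fun I : ℕ × List (List (ℤ × List ℕ)) => I) := Poly.id
  refine InAER.of_poly (φ := senD d) ?_ ?_
  · exact Poly.ite (p := fun I : ℕ × List (List (ℤ × List ℕ)) => dgB d I.2 = true)
      (Poly.decide_bool (poly_dgB d hI.snd))
      (Poly.ite (p := fun I : ℕ × List (List (ℤ × List ℕ)) => okB I.1 I.2 = true)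
        (Poly.decide_bool (poly_okB hI.fst hI.snd)) (poly_sen hI.snd) (Poly.const _))
      (Poly.const _)
  · intro I
    unfold SurjDeg senD
    by_cases h : dgB d I.2 = true
    · rw [if_pos h, ← senI_correct]
      exact and_iff_right ((dgB_iff _ _).1 h)
    · rw [if_neg h]
      constructor
      · intro h'
        exact absurd ((dgB_iff _ _).2 h'.1) h
      · intro h'
        exact absurd h' not_aetr_ff

end Pool.Agent.NPC.Q230SU
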