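import Pool.Agent.Q230.SU.Core

/-!
# Surjectivity: correctness of the reduction
-/

set_option autoImplicit false

namespace Pool.Agent.Q230.SU

open Pool.Agent.NPC Pool.Agent.NPC.ER

theorem surj_iff (I : ℕ × List (List (ℤ × List ℕ))) : Surj I ↔ (∀ p ∈ I.2, Ok I.1 p) ∧
    ∀ t : ℕ → ℝ, ∃ x : ℕ → ℝ, ∀ (j : ℕ) (hj : j < I.2.length), val x (I.2[j]) = t j := by
  unfold Surj
  refine and_congr_right fun hok => ?_
  constructor
  · intro h t
    obtain ⟨x, hx⟩ := h (fun j => t j)
    refine ⟨fun i => if h : i < I.1 then x ⟨i, h⟩ else 0, fun j hj => ?_⟩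
    have h1 := congrFun hx ⟨j, hj⟩
    simp only at h1
    rw [← h1, aeval_toPoly (hok _ (List.get_mem _ _)) x (fun i => if h : i < I.1 then x ⟨i, h⟩ else 0)]
    · rfl
    · intro i
      simp
  · intro h t
    obtain ⟨x, hx⟩ := h (fun j => if h : j < I.2.length then t ⟨j, h⟩ else 0)
    refine ⟨fun i => x i, ?_⟩
    funext j
    simp only
    rw [aeval_toPoly (hok _ (List.get_mem _ _)) _ x (fun _ => rfl)]
    have := hx j j.isLt
    simp only [Fin.is_lt, dite_true] at this
    exact this

theorem ok_pmul {n : ℕ} {p q : List (ℤ × List ℕ)} (hp : Ok n p) (hq : Ok n q) : Ok n (pmul p q) := by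
  intro t ht i hi
  simp only [pmul, List.mem_flatMap, List.mem_map] at ht
  obtain ⟨t', ht', s, hs, rfl⟩ := ht
  rcases List.mem_append.1 hi with hi | hi
  · exact hp t' ht' i hi
  · exact hq s hs i hi

/-- bound on the degree -/
def Dg (d : ℕ) (p : List (ℤ × List ℕ)) : Prop := ∀ t ∈ p, t.2.length ≤ d

theorem dg_pmul {d e : ℕ} {p q : List (ℤ × List ℕ)} (hp : Dg d p) (hq : Dg e q) :
    Dg (d + e) (pmul p q) := by
  intro t ht
  simp only [pmul, List.mem_flatMap, List.mem_map] at ht
  obtain ⟨t', ht', s, hs, rfl⟩ := ht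
  rw [List.length_append]
  exact Nat.add_le_add (hp t' ht') (hq s hs)

theorem ok_res {V : List ℕ} (c : ER.Con) : Ok (V.length + 3) (res V c) := by
  intro t ht i hi
  have h : ∀ i, V.idxOf i < V.length + 3 := fun i => by
    have := List.idxOf_le_length (a := i) (l := V)
    omega
  cases c <;> simp only [res, List.mem_cons, List.not_mem_nil, or_false] at ht
  · rcases ht with rfl | rfl <;> simp at hi
    rw [hi]; exact h _
  · rcases ht with rfl | rfl | rfl <;> simp at hi <;> rw [hi] <;> exact h _
  · rcases ht with rfl | rfl <;> simp at hi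
    · rcases hi with rfl | rfl <;> exact h _
    · rw [hi]; exact h _

theorem dg_res {V : List ℕ} (c : ER.Con) : Dg 2 (res V c) := by
  intro t ht
  cases c <;> simp only [res, List.mem_cons, List.not_mem_nil, or_false] at ht
  · rcases ht with rfl | rfl <;> simp
  · rcases ht with rfl | rfl | rfl <;> simp
  · rcases ht with rfl | rfl <;> simp

theorem ok_big (U : List ℕ) (S : List ER.Con) : Ok ((nam U S).length + 3) (big U S) := by
  intro t ht
  simp only [big, List.mem_append, List.mem_flatMap, List.mem_singleton] at ht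
  rcases ht with ⟨c, -, ht⟩ | rfl
  · exact ok_pmul (ok_res c) (ok_res c) t ht
  · intro i hi
    simp at hi
    omega

theorem dg_big (U : List ℕ) (S : List ER.Con) : Dg 4 (big U S) := by
  intro t ht
  simp only [big, List.mem_append, List.mem_flatMap, List.mem_singleton] at ht
  rcases ht with ⟨c, -, ht⟩ | rfl
  · exact dg_pmul (dg_res c) (dg_res c) t ht
  · simp

theorem ok_H1 (N : ℕ) : Ok (N + 3) (H1 N) := by
  intro t ht i hi
  simp only [H1, List.mem_cons, List.not_mem_nil, or_false] at ht
  rcases ht with rfl | rfl <;> simp at hi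
  omega

theorem ok_H2 (N : ℕ) : Ok (N + 3) (H2 N) := by
  intro t ht i hi
  simp only [H2, List.mem_cons, List.not_mem_nil, or_false] at ht
  rcases ht with rfl | rfl | rfl <;> simp at hi <;> omega

theorem dg_H1 (N : ℕ) : Dg 4 (H1 N) := by
  intro t ht
  simp only [H1, List.mem_cons, List.not_mem_nil, or_false] at ht
  rcases ht with rfl | rfl <;> simp

theorem dg_H2 (N : ℕ) : Dg 4 (H2 N) := by
  intro t ht
  simp only [H2, List.mem_cons, List.not_mem_nil, or_false] at ht
  rcases ht with rfl | rfl | rfl <;> simp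

theorem ok_inst (p : List ℕ × List ER.Con) : ∀ q ∈ (inst p).2, Ok (inst p).1 q := by
  intro q hq
  simp only [inst, cps, List.mem_append, List.mem_map, List.mem_cons, List.not_mem_nil,
    or_false] at hq
  rcases hq with ⟨i, -, rfl⟩ | rfl | rfl
  · intro t ht j hj
    simp at ht
    subst ht
    simp at hj
    subst hj
    have := List.idxOf_le_length (a := i) (l := nam p.1 p.2)
    simp only [inst]
    omega
  · exact ok_pmul (ok_big _ _) (ok_H1 _)
  · exact ok_pmul (ok_big _ _) (ok_H2 _)

theorem dg_inst (p : List ℕ × List ER.Con) : ∀ q ∈ (inst p).2, Dg 8 q := by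
  intro q hq
  simp only [inst, cps, List.mem_append, List.mem_map, List.mem_cons, List.not_mem_nil,
    or_false] at hq
  rcases hq with ⟨i, -, rfl⟩ | rfl | rfl
  · intro t ht
    simp at ht
    subst ht
    simp
  · exact dg_pmul (dg_big _ _) (dg_H1 _)
  · exact dg_pmul (dg_big _ _) (dg_H2 _)

theorem val_sq {V : List ℕ} (x : ℕ → ℝ) (S : List ER.Con) :
    0 ≤ val x (S.flatMap fun c => pmul (res V c) (res V c)) ∧
      (val x (S.flatMap fun c => pmul (res V c) (res V c)) = 0 ↔ ∀ c ∈ S, val x (res V c) = 0) := by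
  induction S with
  | nil => simp
  | cons c S ih =>
    rw [List.flatMap_cons, val_append, val_pmul]
    refine ⟨add_nonneg (mul_self_nonneg _) ih.1, ?_⟩
    rw [add_eq_zero_iff_of_nonneg (mul_self_nonneg _) ih.1, mul_self_eq_zero, ih.2]
    simp

theorem val_big (U : List ℕ) (S : List ER.Con) (x : ℕ → ℝ) : val x (big U S) =
    val x (S.flatMap fun c => pmul (res (nam U S) c) (res (nam U S) c)) +
      x (nam U S).length * x (nam U S).length := by
  rw [big, val_append]
  simp [val]

theorem val_H1 (N : ℕ) (x : ℕ → ℝ) : val x (H1 N) = x (N + 1) * x (N + 2) - 1 := by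
  simp [val, H1]
  ring

theorem val_H2 (N : ℕ) (x : ℕ → ℝ) :
    val x (H2 N) = x (N + 1) ^ 3 * x (N + 2) - x (N + 1) ^ 2 - x (N + 2) := by
  simp [val, H2]
  ring

theorem correct (U : List ℕ) (S : List ER.Con) : AESat U S ↔ Surj (inst (U, S)) := by
  rw [surj_iff]
  have hok : (∀ p ∈ (inst (U, S)).2, Ok (inst (U, S)).1 p) := ok_inst (U, S)
  refine Iff.trans ?_ (and_iff_right hok).symm
  have hlen : (inst (U, S)).2.length = U.dedup.length + 2 := by simp [inst, cps]
  have hget0 : ∀ (j : ℕ) (hj : j < U.dedup.length) (h : j < (inst (U, S)).2.length),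
      (inst (U, S)).2[j] = [((1 : ℤ), [(nam U S).idxOf (U.dedup[j])])] := by
    intro j hj h
    simp only [inst, cps]
    rw [List.getElem_append_left (by simpa using hj)]
    simp
  have hget1 : ∀ (h : U.dedup.length < (inst (U, S)).2.length),
      (inst (U, S)).2[U.dedup.length] = pmul (big U S) (H1 (nam U S).length) := by
    intro h
    simp only [inst, cps]
    rw [List.getElem_append_right (by simp)]
    simp
  have hget2 : ∀ (h : U.dedup.length + 1 < (inst (U, S)).2.length),
      (inst (U, S)).2[U.dedup.length + 1] = pmul (big U S) (H2 (nam U S).length) := by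
    intro h
    simp only [inst, cps]
    rw [List.getElem_append_right (by simp)]
    simp
  have hvars : ∀ c ∈ S, ∀ i ∈ c.vars, i ∈ nam U S := fun c hc i hi =>
    List.mem_append_left _ (List.mem_flatMap.2 ⟨c, hc, hi⟩)
  have hU : ∀ i ∈ U, i ∈ nam U S := fun i hi => List.mem_append_right _ hi
  constructor
  · intro h t
    obtain ⟨v, hv, hS⟩ := h (fun i => t (U.dedup.idxOf i))
    obtain ⟨w, a, b, h1, h2⟩ : ∃ w a b : ℝ, (w * w) * (a * b - 1) = t U.dedup.length ∧
        (w * w) * (a ^ 3 * b - a ^ 2 - b) = t (U.dedup.length + 1) := by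
      by_cases h0 : t U.dedup.length = 0 ∧ t (U.dedup.length + 1) = 0
      · exact ⟨0, 0, 0, by rw [h0.1]; ring, by rw [h0.2]; ring⟩
      · obtain ⟨a, b, h1, h2⟩ := H_surj _ _ h0
        exact ⟨1, a, b, by rw [h1]; ring, by rw [h2]; ring⟩
    obtain ⟨N, hN⟩ : ∃ N, N = (nam U S).length := ⟨_, rfl⟩
    let x : ℕ → ℝ := fun k => if k < N then v ((nam U S).getD k 0) else
      if k = N then w else if k = N + 1 then a else b
    have hx : ∀ i ∈ nam U S, x ((nam U S).idxOf i) = v i := by
      intro i hi
      have h3 := List.idxOf_lt_length_of_mem hi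
      simp only [x, hN, h3, if_true]
      rw [List.getD_eq_getElem _ _ h3, List.getElem_idxOf]
    have hb : val x (big U S) = w * w := by
      rw [val_big]
      have h3 : val x (S.flatMap fun c => pmul (res (nam U S) c) (res (nam U S) c)) = 0 := by
        rw [(val_sq x S).2]
        intro c hc
        rw [res_zero]
        exact (Con.holds_congr fun i hi => hx i (hvars c hc i hi)).2 (hS c hc)
      rw [h3, ← hN]
      simp [x]
    refine ⟨x, ?_⟩
    intro j hj
    rw [hlen] at hj
    rcases lt_trichotomy j U.dedup.length with h3 | h3 | h3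
    · rw [hget0 j h3]
      simp only [val, List.map_cons, List.map_nil, List.sum_cons, List.sum_nil, List.prod_cons,
        List.prod_nil, mul_one, add_zero, Int.cast_one, one_mul]
      have h4 : U.dedup[j] ∈ U := List.mem_dedup.1 (List.getElem_mem h3)
      rw [hx _ (hU _ h4), hv _ h4, (List.nodup_dedup U).idxOf_getElem j h3]
    · subst h3
      rw [hget1, val_pmul, hb, val_H1, ← hN]
      simpa [x] using h1
    · obtain rfl : j = U.dedup.length + 1 := by omega
      rw [hget2, val_pmul, hb, val_H2, ← hN]
      simpa [x] using h2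
  · intro h x
    obtain ⟨X, hX⟩ := h (fun j => if j < U.dedup.length then x (U.dedup.getD j 0) else 0)
    refine ⟨fun i => X ((nam U S).idxOf i), ?_, ?_⟩
    · intro i hi
      have hi' : i ∈ U.dedup := List.mem_dedup.2 hi
      have h3 := List.idxOf_lt_length_of_mem hi'
      have h4 := hX (U.dedup.idxOf i) (by omega)
      rw [hget0 _ h3, if_pos h3, List.getD_eq_getElem _ _ h3, List.getElem_idxOf] at h4
      simpa [val] using h4
    · have h1 := hX U.dedup.length (by omega)
      have h2 := hX (U.dedup.length + 1) (by omega)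
      rw [hget1, val_pmul, val_H1, if_neg (by omega)] at h1
      rw [hget2, val_pmul, val_H2, if_neg (by omega)] at h2
      have hb : val X (big U S) = 0 := by
        by_contra h0
        exact H_ne _ _ ((mul_eq_zero.1 h1).resolve_left h0) ((mul_eq_zero.1 h2).resolve_left h0)
      rw [val_big] at hb
      have h3 := val_sq (V := nam U S) X S
      have h4 : val X (S.flatMap fun c => pmul (res (nam U S) c) (res (nam U S) c)) = 0 := by
        nlinarith [h3.1, mul_self_nonneg (X (nam U S).length)]
      intro c hc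
      exact (res_zero _ _ _).1 (h3.2.1 h4 c hc)

end Pool.Agent.Q230.SU
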